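import Pool.Agent.H43.BZ.Stm2
import Pool.Agent.H643.BZ.Sup

/-!
# SUPn: continuity in time of the supremum over `(x, v)` of an integral with a kernel
-/

set_option autoImplicit false

open MeasureTheory Metric Set Filter Topology
open scoped RealInnerProductSpace ENNReal

namespace Pool.Agent.H784.BZ

open Pool.Agent.H43.BZ Pool.Agent.H643.BZ

theorem slice_cont {d : ℕ} {T : ℝ} {f : ℝ → E d → E d → ℝ}
    (hc : ContinuousOn (fun p : ℝ × E d × E d => f p.1 p.2.1 p.2.2) (Ico 0 T ×ˢ univ))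
    {t : ℝ} (ht : t ∈ Ico 0 T) (x : E d) : Continuous (f t x) := by
  have h1 : ContinuousOn (fun v : E d => f t x v) univ := by
    have := hc.comp (f := fun v : E d => ((t, x, v) : ℝ × E d × E d)) (s := univ)
      (by fun_prop) (fun v _ => ⟨ht, mem_univ _⟩)
    exact this
  exact continuousOn_univ.mp h1

/-- integration against the kernel -/
theorem int_lem {d m : ℕ} {g κ : E d → ℝ} {A C : ℝ} (hg : Continuous g)
    (hgb : ∀ w, (1 + ‖w‖) ^ m * |g w| ≤ A) (hk0 : ∀ w, 0 ≤ κ w)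
    (hki : Integrable (fun w => κ w * ((1 + ‖w‖) ^ m)⁻¹))
    (hkC : ∫ w, κ w * ((1 + ‖w‖) ^ m)⁻¹ ≤ C) :
    Integrable (fun w => g w * κ w) ∧ |∫ w, g w * κ w| ≤ A * C := by
  have hA : 0 ≤ A := le_trans (by positivity) (hgb 0)
  have hpos : ∀ w : E d, 0 < (1 + ‖w‖) ^ m := fun w => by
    have := norm_nonneg w
    positivity
  have hm : AEStronglyMeasurable (fun w => g w * κ w) (volume : Measure (E d)) := by
    have h1 : AEStronglyMeasurable (fun w : E d => (g w * (1 + ‖w‖) ^ m) *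
        (κ w * ((1 + ‖w‖) ^ m)⁻¹)) (volume : Measure (E d)) := by
      refine AEStronglyMeasurable.mul ?_ hki.aestronglyMeasurable
      exact (hg.mul (by fun_prop)).aestronglyMeasurable
    have e : (fun w => g w * κ w) = fun w : E d => (g w * (1 + ‖w‖) ^ m) *
        (κ w * ((1 + ‖w‖) ^ m)⁻¹) := by
      funext w
      have := (hpos w).ne'
      field_simp
    rw [e]
    exact h1
  have hb : ∀ w, ‖g w * κ w‖ ≤ A * (κ w * ((1 + ‖w‖) ^ m)⁻¹) := by
    intro w
    rw [norm_mul, Real.norm_eq_abs, Real.norm_of_nonneg (hk0 w)]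
    have h1 : |g w| ≤ A * ((1 + ‖w‖) ^ m)⁻¹ := by
      rw [← div_eq_mul_inv, le_div_iff₀ (hpos w), mul_comm]
      exact hgb w
    have h2 := mul_le_mul_of_nonneg_right h1 (hk0 w)
    linarith
  have hbi : Integrable (fun w : E d => A * (κ w * ((1 + ‖w‖) ^ m)⁻¹)) := hki.const_mul A
  refine ⟨hbi.mono' hm (Eventually.of_forall hb), ?_⟩
  have h3 := norm_integral_le_of_norm_le hbi (Eventually.of_forall hb)
  rw [integral_const_mul, Real.norm_eq_abs] at h3
  exact h3.trans (mul_le_mul_of_nonneg_left hkC hA)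

/-- uniform continuity in time with a weight -/
theorem unif {d m : ℕ} {T : ℝ} {f : ℝ → E d → E d → ℝ}
    (hnn : ∀ t ∈ Ico 0 T, ∀ x v, 0 ≤ f t x v)
    (hc : ContinuousOn (fun p : ℝ × E d × E d => f p.1 p.2.1 p.2.2) (Ico 0 T ×ˢ univ))
    (hper : ∀ t ∈ Ico 0 T, ∀ x v, ∀ i, f t (x + EuclideanSpace.single i 1) v = f t x v)
    (hdec : ∀ T' ∈ Ico 0 T, ∀ q : ℕ, ∃ C : ℝ, ∀ t ∈ Icc 0 T', ∀ x v,
      (1 + ‖v‖) ^ q * f t x v ≤ C) {t₀ : ℝ} (ht₀ : t₀ ∈ Ico 0 T) {ε : ℝ} (hε : 0 < ε) :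
    ∀ᶠ t in 𝓝[Ico 0 T] t₀, ∀ x w, (1 + ‖w‖) ^ m * |f t x w - f t₀ x w| ≤ ε := by
  obtain ⟨T', hT'⟩ : ∃ T', T' = (t₀ + T) / 2 := ⟨_, rfl⟩
  have hT'm : T' ∈ Ico 0 T := ⟨by have := ht₀.1; have := ht₀.2; rw [hT']; linarith,
    by have := ht₀.2; rw [hT']; linarith⟩
  have hlt : t₀ < T' := by have := ht₀.2; rw [hT']; linarith
  have hsub : ∀ t ∈ Icc 0 T', t ∈ Ico 0 T := fun t ht => ⟨ht.1, lt_of_le_of_lt ht.2 hT'm.2⟩
  have ht₀' : t₀ ∈ Icc 0 T' := ⟨ht₀.1, hlt.le⟩
  obtain ⟨C₁, hC₁⟩ := hdec T' hT'm (m + 1)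
  have hC0 : 0 ≤ C₁ := by
    refine le_trans ?_ (hC₁ t₀ ht₀' 0 0)
    have := hnn t₀ ht₀ 0 0
    positivity
  obtain ⟨ρ, hρ⟩ : ∃ ρ, ρ = C₁ / ε := ⟨_, rfl⟩
  have hρ0 : 0 ≤ ρ := by rw [hρ]; positivity
  -- the extension to all times
  obtain ⟨G, hG⟩ : ∃ G : ℝ → E d × E d → ℝ,
      G = fun t q => f (projIcc 0 T' hT'm.1 t) q.1 q.2 := ⟨_, rfl⟩
  have hGc : Continuous fun p : ℝ × E d × E d => G p.1 p.2 := by
    have := hc.comp (f := fun p : ℝ × E d × E d =>
        ((((projIcc 0 T' hT'm.1 p.1 : Icc 0 T') : ℝ), p.2) : ℝ × E d × E d))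
      (s := univ) ?_ (fun q _ => ⟨hsub _ (projIcc 0 T' hT'm.1 q.1).2, mem_univ _⟩)
    · rw [hG]
      exact continuousOn_univ.mp this
    · refine Continuous.continuousOn ?_
      exact (continuous_subtype_val.comp (continuous_projIcc.comp continuous_fst)).prodMk
        continuous_snd
  have hGf : ∀ t ∈ Icc 0 T', ∀ x w, G t (x, w) = f t x w := by
    intro t ht x w
    rw [hG]
    simp only [projIcc_of_mem hT'm.1 ht]
  have hRpos : 0 < (1 + ρ) ^ m := by positivity
  -- the compact part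
  have hK : IsCompact (cube d ×ˢ closedBall (0 : E d) ρ) :=
    (cube_compact d).prod (isCompact_closedBall _ _)
  have hcomp : ∀ᶠ t in 𝓝 t₀, ∀ q ∈ cube d ×ˢ closedBall (0 : E d) ρ,
      |G t q - G t₀ q| ≤ ε / (1 + ρ) ^ m := by
    refine hK.eventually_forall_of_forall_eventually (fun q _ => ?_)
    have h1 : Continuous fun z : ℝ × E d × E d => |G z.1 z.2 - G t₀ z.2| := by
      refine (hGc.sub ?_).abs
      exact hGc.comp (continuous_const.prodMk continuous_snd)
    have h2 := h1.tendsto (t₀, q)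
    simp only [sub_self, abs_zero] at h2
    exact h2.eventually (eventually_le_nhds (by positivity))
  have hmem : Icc 0 T' ∈ 𝓝[Ico 0 T] t₀ := by
    have h1 : Iic T' ∈ 𝓝[Ico 0 T] t₀ := mem_nhdsWithin_of_mem_nhds (Iic_mem_nhds hlt)
    have h2 : Ico 0 T ∈ 𝓝[Ico 0 T] t₀ := self_mem_nhdsWithin
    filter_upwards [h1, h2] with t h1 h2
    exact ⟨h2.1, h1⟩
  filter_upwards [hmem, mem_nhdsWithin_of_mem_nhds hcomp] with t ht htc x w
  have htT := hsub t ht
  have hw1 : 0 < 1 + ‖w‖ := by have := norm_nonneg w; linarith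
  rcases le_total ‖w‖ ρ with hw | hw
  · -- bounded velocities
    obtain ⟨y, hy, hyx⟩ := exists_cube (fun z : E d => (f t z, f t₀ z)) (fun z i => by
      refine Prod.ext ?_ ?_
      · funext v
        exact hper t htT z v i
      · funext v
        exact hper t₀ ht₀ z v i) x
    have e1 : f t y = f t x := congrArg Prod.fst hyx
    have e2 : f t₀ y = f t₀ x := congrArg Prod.snd hyx
    have h1 := htc (y, w) ⟨hy, by rw [mem_closedBall_zero_iff]; exact hw⟩
    rw [hGf t ht, hGf t₀ ht₀', e1, e2, le_div_iff₀ hRpos] at h1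
    refine le_trans ?_ h1
    rw [mul_comm]
    refine mul_le_mul_of_nonneg_left ?_ (abs_nonneg _)
    exact pow_le_pow_left₀ hw1.le (by linarith) m
  · -- large velocities
    have h1 := hC₁ t ht x w
    have h2 := hC₁ t₀ ht₀' x w
    have h3 := hnn t htT x w
    have h4 := hnn t₀ ht₀ x w
    have h5 : |f t x w - f t₀ x w| ≤ max (f t x w) (f t₀ x w) := by
      rw [abs_le]
      constructor
      · have := le_max_right (f t x w) (f t₀ x w)
        linarith
      · have := le_max_left (f t x w) (f t₀ x w)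
        linarith
    have h6 : (1 + ‖w‖) ^ (m + 1) * max (f t x w) (f t₀ x w) ≤ C₁ := by
      rcases le_total (f t x w) (f t₀ x w) with h | h
      · rw [max_eq_right h]
        exact h2
      · rw [max_eq_left h]
        exact h1
    have h7 : (1 + ‖w‖) ^ m * |f t x w - f t₀ x w| * (1 + ‖w‖) ≤ C₁ := by
      refine le_trans ?_ h6
      have e : (1 + ‖w‖) ^ m * |f t x w - f t₀ x w| * (1 + ‖w‖) =
          (1 + ‖w‖) ^ (m + 1) * |f t x w - f t₀ x w| := by ring
      rw [e]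
      exact mul_le_mul_of_nonneg_left h5 (by positivity)
    have h8 : C₁ ≤ ε * (1 + ‖w‖) := by
      have h9 : C₁ = ε * ρ := by rw [hρ]; field_simp
      rw [h9]
      exact mul_le_mul_of_nonneg_left (by linarith) hε.le
    exact le_of_mul_le_mul_right (h7.trans h8) hw1

/-- **SUPn** -/
theorem SUPn : S_SUPn := by
  intro d T f k m C hT hk0 hki hkC hnn hc hper hdec
  have hC0 : 0 ≤ C := by
    refine le_trans ?_ (hkC 0)
    refine integral_nonneg fun w => ?_
    have := hk0 0 w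
    have := norm_nonneg w
    positivity
  -- bound at a fixed time
  have hfix : ∀ t ∈ Ico 0 T, ∃ A : ℝ, ∀ x v, Integrable (fun w => f t x w * k v w) ∧
      |∫ w, f t x w * k v w| ≤ A * C := by
    intro t ht
    obtain ⟨A, hA⟩ := hdec t ht m
    refine ⟨A, fun x v => int_lem (slice_cont hc ht x) (fun w => ?_) (hk0 v) (hki v) (hkC v)⟩
    rw [abs_of_nonneg (hnn t ht x w)]
    exact hA t ⟨ht.1, le_rfl⟩ x w
  have hbdd : ∀ t ∈ Ico 0 T, BddAbove (range fun q : E d × E d => ∫ w, f t q.1 w * k q.2 w) := by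
    intro t ht
    obtain ⟨A, hA⟩ := hfix t ht
    refine ⟨A * C, ?_⟩
    rintro _ ⟨q, rfl⟩
    exact (le_abs_self _).trans (hA q.1 q.2).2
  refine ⟨?_, hbdd, fun t ht x v => ?_⟩
  · intro t₀ ht₀
    rw [ContinuousWithinAt, Metric.tendsto_nhds]
    intro ε hε
    have hδ : 0 < ε / (C + 1) / 2 := by positivity
    filter_upwards [unif (m := m) hnn hc hper hdec ht₀ hδ, self_mem_nhdsWithin] with t h1 ht
    obtain ⟨A, hA⟩ := hfix t ht
    obtain ⟨A₀, hA₀⟩ := hfix t₀ ht₀
    have hdiff : ∀ q : E d × E d,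
        |(∫ w, f t q.1 w * k q.2 w) - ∫ w, f t₀ q.1 w * k q.2 w| ≤ ε / (C + 1) / 2 * C := by
      intro q
      have h2 := (int_lem (g := fun w => f t q.1 w - f t₀ q.1 w) (κ := k q.2)
        ((slice_cont hc ht q.1).sub (slice_cont hc ht₀ q.1)) (fun w => h1 q.1 w) (hk0 q.2)
        (hki q.2) (hkC q.2)).2
      have e : (∫ w, f t q.1 w * k q.2 w) - ∫ w, f t₀ q.1 w * k q.2 w =
          ∫ w, (f t q.1 w - f t₀ q.1 w) * k q.2 w := by
        rw [← integral_sub (hA q.1 q.2).1 (hA₀ q.1 q.2).1]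
        refine integral_congr_ae (Eventually.of_forall fun w => ?_)
        change f t q.1 w * k q.2 w - f t₀ q.1 w * k q.2 w = (f t q.1 w - f t₀ q.1 w) * k q.2 w
        ring
      rw [e]
      exact h2
    have hle : ∀ (a b : E d × E d → ℝ) (δ : ℝ), BddAbove (range b) → (∀ q, a q ≤ b q + δ) →
        (⨆ q, a q) ≤ (⨆ q, b q) + δ := by
      intro a b δ hb hab
      refine ciSup_le fun q => (hab q).trans ?_
      have := le_ciSup hb q
      linarith
    have h3 := hle _ _ (ε / (C + 1) / 2 * C) (hbdd t₀ ht₀) (fun q => by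
      have := (abs_le.mp (hdiff q)).2
      change (∫ w, f t q.1 w * k q.2 w) ≤ _
      linarith)
    have h4 := hle _ _ (ε / (C + 1) / 2 * C) (hbdd t ht) (fun q => by
      have := (abs_le.mp (hdiff q)).1
      change (∫ w, f t₀ q.1 w * k q.2 w) ≤ _
      linarith)
    rw [Real.dist_eq]
    have h5 : ε / (C + 1) / 2 * C < ε := by
      have h6 : ε / (C + 1) / 2 * C = ε * (C / (C + 1)) / 2 := by ring
      have h7 : C / (C + 1) ≤ 1 := by
        rw [div_le_one (by positivity)]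
        linarith
      rw [h6]
      have h8 : ε * (C / (C + 1)) ≤ ε * 1 := mul_le_mul_of_nonneg_left h7 hε.le
      linarith
    refine lt_of_le_of_lt ?_ h5
    rw [abs_le]
    constructor
    · linarith
    · linarith
  · obtain ⟨A, hA⟩ := hfix t ht
    exact (hA x v).1

end Pool.Agent.H784.BZ
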